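import Mathlib
import Pool.Agent.H531R2.D4.FinalC

/-
Parked hand-in MP_c2aa42_lc.DepthFour (helper531), contained in MP_e2be99_lc.UnboundedProducts and
MP_c2aa42_lc.SumsOfProducts. Claim text:
Proves: For all k, d, n, s, with D = D(k,d), B = s(n+1), the explicit set points n k D B in Z^n (at most (B+1)^(2D+k+4kD) points, coordinates at most (DB+2kDB^2)(B+n)^(n-1) in absolute value) contains, for every nonzero f in C[x_1..x_n] of total degree at most s that is a sum of k products of polynomials of degree at most d, a point where f is not 0; likewise for every f of degree at most s dividing a nonzero product of members of IsBddTr k d, a class that contains all such sums.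
Definitions: IsProd d T: T is a finite product of polynomials of degree <= d. IsDepthFour k d f: f is a sum of k such T. IsBddTr k d f: f is a polynomial in finitely many such T, no k+1 of them algebraically independent. pairs 0 e = e, pairs (k+1) e = pairs k (8(e+1)^4); Dc k d = D(k,d) = pairs k (kd+k+d). sv y z: i-th coordinate sum_l y_l prod_{j<>i}(z_l-j), j in 0..n-1. point: sv y z + sum_{j<k} c_j sv Y_j Z_j, y, z of length D, Y_j, Z_j of length 2D. points n k D B: all these, entries in {0..B}.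
Relation: Partial answer to Q1: explicit polynomial-size hitting sets (blackbox PIT) for depth-4 circuits with top fan-in k and bottom fan-in d, for all constants k, d. To our knowledge new: Dutta-Dwivedi-Saxena (CCC 2021) have quasipolynomial size; polynomial size was known for k <= 3 (Peleg-Shpilka; Garg-Oliveira-Sengupta), for d = 1, and for low-rank cases (Beecken-Mittmann-Saxena).
-/
/-!
# Polynomial-size explicit hitting sets for depth-4 circuits with bounded top fan-in and bounded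
bottom fan-in (`ΣΠΣΠ(k, δ)` circuits), for all constants `k` and `δ`
-/

namespace Pool.Agent.Results.MP_c2aa42_lc.DepthFour

open MvPolynomial

/-- `T` is a product of any number of polynomials of total degree at most `δ`. -/
def IsProd {n : ℕ} (δ : ℕ) (T : MvPolynomial (Fin n) ℂ) : Prop :=
  ∃ L : List (MvPolynomial (Fin n) ℂ), (∀ g ∈ L, g.totalDegree ≤ δ) ∧ T = L.prod

/-- `f` is a sum of `k` products of polynomials of total degree at most `δ`: it is computed by a
depth-4 circuit (sum of products of sums of products) with top fan-in `k` and bottom fan-in `δ`. -/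
def IsDepthFour {n : ℕ} (k δ : ℕ) (f : MvPolynomial (Fin n) ℂ) : Prop :=
  ∃ T : Fin k → MvPolynomial (Fin n) ℂ, (∀ i, IsProd δ (T i)) ∧ f = ∑ i, T i

/-- `f` is a polynomial expression in any number of products of polynomials of degree at most `δ`
such that no `k + 1` of these products are algebraically independent. -/
def IsBddTr {n : ℕ} (k δ : ℕ) (f : MvPolynomial (Fin n) ℂ) : Prop :=
  ∃ (m : ℕ) (T : Fin m → MvPolynomial (Fin n) ℂ), (∀ i, IsProd δ (T i)) ∧
    (∀ u : Fin (k + 1) → Fin m, ¬ AlgebraicIndependent ℂ (fun a => T (u a))) ∧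
    f ∈ Algebra.adjoin ℂ (Set.range T)

/-- `pairs 0 d = d` and `pairs (k + 1) d = pairs k (8 (d + 1)⁴)`. -/
def pairs : ℕ → ℕ → ℕ
  | 0, d => d
  | k + 1, d => pairs k (8 * (d + 1) ^ 4)

/-- The constant `D(k, δ) = pairs k (kδ + k + δ)`. -/
def Dc (k δ : ℕ) : ℕ := pairs k (k * δ + k + δ)

/-- `∑_l y_l ∏_{j ≠ i} (z_l - j)`, the `i`-th coordinate of the Shpilka–Volkovich point with
seeds `y, z ∈ ℕ^m` (nodes `0, …, n-1`). -/
def sv {n m : ℕ} (y z : Fin m → ℕ) (i : Fin n) : ℤ :=
  ∑ l, (y l : ℤ) * ∏ j ∈ Finset.univ.erase i, ((z l : ℤ) - (j.val : ℤ))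

/-- The point `sv y z + ∑_j c_j · sv (Y_j) (Z_j)` of `ℤ^n`. -/
def point (n : ℕ) {k D : ℕ} (y z : Fin D → ℕ) (c : Fin k → ℕ) (Y Z : Fin k → Fin (D + D) → ℕ) :
    Fin n → ℤ :=
  fun i => sv y z i + ∑ j, (c j : ℤ) * sv (Y j) (Z j) i

/-- The explicit set of all points with all seeds in `{0, …, B}`. -/
def points (n k D B : ℕ) : Finset (Fin n → ℤ) :=
  (Finset.univ : Finset ((Fin D → Fin (B + 1)) × (Fin D → Fin (B + 1)) × (Fin k → Fin (B + 1)) ×
    (Fin k → Fin (D + D) → Fin (B + 1)) × (Fin k → Fin (D + D) → Fin (B + 1)))).image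
    fun s => point n (fun l => (s.1 l : ℕ)) (fun l => (s.2.1 l : ℕ)) (fun j => (s.2.2.1 j : ℕ))
      (fun j l => (s.2.2.2.1 j l : ℕ)) (fun j l => (s.2.2.2.2 j l : ℕ))

theorem pairs_eq (k d : ℕ) : pairs k d = Pool.Agent.H531R2.D4.DD k d := by
  induction k generalizing d with
  | zero => rfl
  | succ k ih => exact ih _

theorem sv_bound {n m B : ℕ} (y z : Fin m → ℕ) (hy : ∀ l, y l ≤ B) (hz : ∀ l, z l ≤ B)
    (i : Fin n) : |sv y z i| ≤ ((m * B * (B + n) ^ (n - 1) : ℕ) : ℤ) := by
  unfold sv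
  refine (Finset.abs_sum_le_sum_abs _ _).trans ?_
  have h1 : ∀ l : Fin m, |(y l : ℤ) * ∏ j ∈ Finset.univ.erase i, ((z l : ℤ) - (j.val : ℤ))| ≤
      ((B * (B + n) ^ (n - 1) : ℕ) : ℤ) := by
    intro l
    rw [abs_mul, Finset.abs_prod]
    push_cast
    refine mul_le_mul ?_ ?_ (Finset.prod_nonneg fun _ _ => abs_nonneg _) (by positivity)
    · rw [abs_of_nonneg (by positivity)]
      exact_mod_cast hy l
    · have h2 : ∀ j ∈ Finset.univ.erase i, |(z l : ℤ) - (j.val : ℤ)| ≤ (B : ℤ) + n := by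
        intro j _
        have h3 : (z l : ℤ) ≤ B := by exact_mod_cast hz l
        have h4 : (j.val : ℤ) < n := by exact_mod_cast j.isLt
        have h5 : (0 : ℤ) ≤ z l := by positivity
        have h6 : (0 : ℤ) ≤ j.val := by positivity
        rw [abs_le]
        constructor <;> linarith
      refine (Finset.prod_le_prod (fun _ _ => abs_nonneg _) h2).trans ?_
      rw [Finset.prod_const, Finset.card_erase_of_mem (Finset.mem_univ i), Finset.card_univ,
        Fintype.card_fin]
  refine (Finset.sum_le_sum fun l _ => h1 l).trans ?_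
  rw [Finset.sum_const, Finset.card_univ, Fintype.card_fin, nsmul_eq_mul]
  push_cast
  rw [mul_assoc]

theorem points_card (n k D B : ℕ) :
    (points n k D B).card ≤ (B + 1) ^ (2 * D + k + 4 * k * D) := by
  unfold points
  refine Finset.card_image_le.trans ?_
  rw [Finset.card_univ]
  simp only [Fintype.card_prod, Fintype.card_fun, Fintype.card_fin]
  rw [← pow_mul, ← pow_add, ← pow_add, ← pow_add, ← pow_add]
  exact le_of_eq (by congr 1; ring)

theorem points_bound (n k D B : ℕ) (p : Fin n → ℤ) (hp : p ∈ points n k D B) (i : Fin n) :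
    |p i| ≤ (((D * B + k * B * (2 * D * B)) * (B + n) ^ (n - 1) : ℕ) : ℤ) := by
  unfold points at hp
  obtain ⟨s, -, rfl⟩ := Finset.mem_image.1 hp
  unfold point
  refine (abs_add_le _ _).trans ?_
  have h1 := sv_bound (n := n) (B := B) (fun l => (s.1 l : ℕ)) (fun l => (s.2.1 l : ℕ))
    (fun l => Nat.le_of_lt_succ (s.1 l).isLt) (fun l => Nat.le_of_lt_succ (s.2.1 l).isLt) i
  have h2 : |∑ j, (((s.2.2.1 j : ℕ) : ℕ) : ℤ) * sv (n := n) (fun l => (s.2.2.2.1 j l : ℕ))
      (fun l => (s.2.2.2.2 j l : ℕ)) i| ≤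
      ((k * (B * ((D + D) * B * (B + n) ^ (n - 1))) : ℕ) : ℤ) := by
    refine (Finset.abs_sum_le_sum_abs _ _).trans ?_
    have h3 : ∀ j : Fin k, |(((s.2.2.1 j : ℕ) : ℕ) : ℤ) * sv (n := n)
        (fun l => (s.2.2.2.1 j l : ℕ)) (fun l => (s.2.2.2.2 j l : ℕ)) i| ≤
        ((B * ((D + D) * B * (B + n) ^ (n - 1)) : ℕ) : ℤ) := by
      intro j
      have h4 := sv_bound (n := n) (B := B) (fun l => (s.2.2.2.1 j l : ℕ))
        (fun l => (s.2.2.2.2 j l : ℕ)) (fun l => Nat.le_of_lt_succ (s.2.2.2.1 j l).isLt)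
        (fun l => Nat.le_of_lt_succ (s.2.2.2.2 j l).isLt) i
      rw [abs_mul]
      push_cast at h4 ⊢
      refine mul_le_mul ?_ h4 (abs_nonneg _) (by positivity)
      rw [abs_of_nonneg (by positivity)]
      exact_mod_cast Nat.le_of_lt_succ (s.2.2.1 j).isLt
    refine (Finset.sum_le_sum fun j _ => h3 j).trans ?_
    rw [Finset.sum_const, Finset.card_univ, Fintype.card_fin, nsmul_eq_mul]
    push_cast
    exact le_refl _
  refine (add_le_add h1 h2).trans (le_of_eq ?_)
  push_cast
  ring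

theorem isBddTr_of_isDepthFour {n k δ : ℕ} {f : MvPolynomial (Fin n) ℂ}
    (h : IsDepthFour k δ f) : IsBddTr k δ f := by
  obtain ⟨T, hT, rfl⟩ := h
  refine ⟨k, T, hT, ?_, ?_⟩
  · intro u hu
    have h1 : Function.Injective u := by
      intro a b hab
      exact hu.injective (by
        show T (u a) = T (u b)
        rw [hab])
    have h2 := Fintype.card_le_of_injective u h1
    rw [Fintype.card_fin, Fintype.card_fin] at h2
    omega
  · exact Subalgebra.sum_mem _ fun i _ => Algebra.subset_adjoin ⟨i, rfl⟩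

theorem factor_degree {n δ : ℕ} {T : MvPolynomial (Fin n) ℂ} (hT : IsProd δ T) (h0 : T ≠ 0)
    (g : MvPolynomial (Fin n) ℂ) (hg : Irreducible g) (hgT : g ∣ T) : g.totalDegree ≤ δ := by
  obtain ⟨L, hL, rfl⟩ := hT
  obtain ⟨h, hh, hgh⟩ := (hg.prime.dvd_prod_iff).1 hgT
  have hh0 : h ≠ 0 := by
    rintro rfl
    exact h0 (List.prod_eq_zero hh)
  obtain ⟨r, rfl⟩ := hgh
  have h1 := hL _ hh
  rw [MvPolynomial.totalDegree_mul_of_isDomain (left_ne_zero_of_mul hh0)
    (right_ne_zero_of_mul hh0)] at h1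
  omega

theorem Phi_ne_zero_of_isBddTr {n k δ : ℕ} {f : MvPolynomial (Fin n) ℂ} (hf : IsBddTr k δ f)
    (hf0 : f ≠ 0) : Pool.Agent.H531R2.D4.Phi ℂ n k (Dc k δ) f ≠ 0 := by
  obtain ⟨m, T, hT, hk, hfT⟩ := hf
  unfold Dc
  rw [pairs_eq]
  exact Pool.Agent.H531R2.D4.Phi_ne_zero T
    (fun j hj g hg hgT => factor_degree (hT j) hj g hg hgT) hk hfT hf0

/-- For all `k, δ, n, s`, with `D = D(k, δ)`, the explicit set `points n k D (s (n + 1)) ⊆ ℤ^n` has
at most `(s (n + 1) + 1)^(2D + k + 4kD)` elements, with coordinates of polynomial bit length, and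
hits every nonzero polynomial of total degree at most `s` in `n` variables which divides a
nonzero product of any number of polynomials in the class `IsBddTr k δ`. This class contains all
depth-4 circuits with top fan-in `k` and bottom fan-in `δ`. -/
theorem result (k δ n s : ℕ) :
    (∀ f : MvPolynomial (Fin n) ℂ, IsDepthFour k δ f → IsBddTr k δ f) ∧
    (points n k (Dc k δ) (s * (n + 1))).card ≤
      (s * (n + 1) + 1) ^ (2 * Dc k δ + k + 4 * k * Dc k δ) ∧
    (∀ p ∈ points n k (Dc k δ) (s * (n + 1)), ∀ i,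
      |p i| ≤ (((Dc k δ * (s * (n + 1)) + k * (s * (n + 1)) * (2 * Dc k δ * (s * (n + 1)))) *
        (s * (n + 1) + n) ^ (n - 1) : ℕ) : ℤ)) ∧
    ∀ (f : MvPolynomial (Fin n) ℂ) (r : ℕ) (g : Fin r → MvPolynomial (Fin n) ℂ),
      (∀ j, IsBddTr k δ (g j)) → (∏ j, g j) ≠ 0 → f ∣ ∏ j, g j → f.totalDegree ≤ s →
      ∃ p ∈ points n k (Dc k δ) (s * (n + 1)), MvPolynomial.eval (fun i => (p i : ℂ)) f ≠ 0 := by
  refine ⟨fun f hf => isBddTr_of_isDepthFour hf, points_card _ _ _ _,
    fun p hp i => points_bound _ _ _ _ p hp i, ?_⟩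
  intro f r g hg h0 hdvd hs
  have h1 : Pool.Agent.H531R2.D4.Phi ℂ n k (Dc k δ) (∏ j, g j) ≠ 0 := by
    rw [map_prod]
    exact Finset.prod_ne_zero_iff.2 fun j hj =>
      Phi_ne_zero_of_isBddTr (hg j) (Finset.prod_ne_zero_iff.1 h0 j hj)
  have h2 : Pool.Agent.H531R2.D4.Phi ℂ n k (Dc k δ) f ≠ 0 := by
    obtain ⟨q, hq⟩ := hdvd
    rw [hq, map_mul] at h1
    exact left_ne_zero_of_mul h1
  obtain ⟨v, hv⟩ := Pool.Agent.H531R2.D4.exists_grid f h2 hs
  refine ⟨_, Finset.mem_image.2 ⟨⟨fun l => v (.inl (.inl l)), fun l => v (.inl (.inr l)),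
    fun j => v (.inr (j, .inr ())), fun j l => v (.inr (j, .inl (.inl l))),
    fun j l => v (.inr (j, .inl (.inr l)))⟩, Finset.mem_univ _, rfl⟩, ?_⟩
  intro h3
  apply hv
  rw [← h3]
  congr 2
  funext i
  simp only [point, sv, Pool.Agent.H531R2.D4.pt, Pool.Agent.H531R2.D4.svR]
  push_cast
  rfl

end Pool.Agent.Results.MP_c2aa42_lc.DepthFour
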