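import Mathlib
import Pool.Agent.H530R2.Blk6

/-!
# Explicit hitting sets for programs of constant width with constantly many passes

Polynomial size hitting sets for a hierarchy of classes of polynomials, whose second level
contains the oblivious algebraic branching programs of constant width which read the variables a
constant number of times, every pass in its own arbitrary order. The hierarchy is closed under
polynomials in boundedly many members, products in which every variable occurs in boundedly many
factors, and read-once programs with boundedly many registers which read members of the class in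
disjoint blocks of variables. On top of it there are arbitrary composites of bounded
transcendence degree, arbitrary products of these, and factors of the products.
-/

namespace Pool.Agent.Results.MP_e2be99_lc.MultiPassPrograms

open MvPolynomial

/-- The contents of `w` registers after `b` steps. The registers start with the constants `c₀`;
step `b` replaces the contents of register `s` by an arbitrary polynomial `upd b s` in the old
contents of the registers and the `v` inputs `inp b 0, …, inp b (v-1)` of this step. -/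
noncomputable def contents {n w v : ℕ} (c₀ : Fin w → ℂ)
    (inp : ℕ → Fin v → MvPolynomial (Fin n) ℂ)
    (upd : ℕ → Fin w → MvPolynomial (Fin w ⊕ Fin v) ℂ) : ℕ → Fin w → MvPolynomial (Fin n) ℂ
  | 0 => fun s => C (c₀ s)
  | b + 1 => fun s => aeval (Sum.elim (contents c₀ inp upd b) (inp b)) (upd b s)

/-- `Comp w D f`: the polynomial `f` is computed by a formula of depth `D` with the following
gates, of unbounded fan-in and degree.
* Leaves (of depth `0`) are the polynomials all of whose monomials involve at most `w` variables.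
* `poly`: arbitrary polynomials in at most `w` arguments, which may share any variables.
* `prod`: products of any number of arguments, if every variable occurs in at most `w` of them.
* `program`: the output of a program of any length with at most `w` registers. The variable `x_k`
  is assigned to the step `β k`. In step `b` the program has at most `w` arguments at hand, which
  contain variables assigned to `b` only, and updates the registers by arbitrary polynomials in
  these arguments and the contents of the registers. The output is an arbitrary polynomial in the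
  final contents of the registers. -/
inductive Comp {n : ℕ} (w : ℕ) : ℕ → MvPolynomial (Fin n) ℂ → Prop
  | leaf {f : MvPolynomial (Fin n) ℂ} : (∀ a ∈ f.support, a.support.card ≤ w) → Comp w 0 f
  | up {D : ℕ} {f : MvPolynomial (Fin n) ℂ} : Comp w D f → Comp w (D + 1) f
  | poly {D N : ℕ} (g : Fin N → MvPolynomial (Fin n) ℂ) (P : MvPolynomial (Fin N) ℂ) :
      N ≤ w → (∀ i, Comp w D (g i)) → Comp w (D + 1) (aeval g P)
  | prod {D N : ℕ} (g : Fin N → MvPolynomial (Fin n) ℂ) :
      (∀ k : Fin n, (Finset.univ.filter fun i => k ∈ (g i).vars).card ≤ w) →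
      (∀ i, Comp w D (g i)) → Comp w (D + 1) (∏ i, g i)
  | program {D u v : ℕ} (β : Fin n → ℕ) (c₀ : Fin u → ℂ)
      (inp : ℕ → Fin v → MvPolynomial (Fin n) ℂ)
      (upd : ℕ → Fin u → MvPolynomial (Fin u ⊕ Fin v) ℂ) (R : ℕ) (P : MvPolynomial (Fin u) ℂ) :
      u ≤ w → v ≤ w → (∀ b i, ∀ k ∈ (inp b i).vars, β k = b) → (∀ b i, Comp w D (inp b i)) →
      Comp w (D + 1) (aeval (contents c₀ inp upd R) P)

/-- The oblivious branching program `u ⬝ A_0 ⋯ A_{c-1} ⬝ v` of width `w` with `c` passes, where
pass `t` is the product `A_t = M_{t,0}(x_{σ_t 0}) M_{t,1}(x_{σ_t 1}) ⋯` of `n` matrices of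
univariate polynomials, which reads the variables in its own order `σ_t`. -/
noncomputable def multipass {n w c : ℕ} (σ : Fin c → Equiv.Perm (Fin n))
    (M : Fin c → Fin n → Matrix (Fin w) (Fin w) (Polynomial ℂ)) (u v : Fin w → ℂ) :
    MvPolynomial (Fin n) ℂ :=
  ∑ i, ∑ j, C (u i) * (List.ofFn fun t : Fin c => (List.ofFn fun k : Fin n =>
    (M t k).map (Polynomial.aeval (X (σ t k) : MvPolynomial (Fin n) ℂ))).prod).prod i j * C (v j)

/-- Composites `P(g_0, …, g_{N-1})` of polynomials of depth `D`, any `r + 1` of which are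
algebraically dependent; the number `N`, the polynomial `P` and its degree are arbitrary. -/
def Composite {n : ℕ} (w D r : ℕ) (f : MvPolynomial (Fin n) ℂ) : Prop :=
  ∃ (N : ℕ) (g : Fin N → MvPolynomial (Fin n) ℂ) (P : MvPolynomial (Fin N) ℂ),
    (∀ i, Comp w D (g i)) ∧
    (∀ s : Fin (r + 1) → Fin N, ¬ AlgebraicIndependent ℂ (fun i => g (s i))) ∧ f = aeval g P

/-- The point with seeds `y, z ∈ ℕ^m`: its `i`-th coordinate is
`∑_l y_l ∏_{k ≠ i} (z_l - k)` (the Shpilka–Volkovich generator with nodes `0, …, n-1`). -/
def point (n m : ℕ) (y z : Fin m → ℕ) : Fin n → ℤ :=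
  fun i => ∑ l : Fin m, (y l : ℤ) * ∏ k ∈ Finset.univ.erase i, ((z l : ℤ) - (k.val : ℤ))

/-- The explicit set of all points with seeds `y ∈ {0,…,d}^m`, `z ∈ {0,…,nd}^m`. -/
def points (n m d : ℕ) : Finset (Fin n → ℤ) :=
  ((Fintype.piFinset fun _ : Fin m => Finset.range (d + 1)) ×ˢ
    (Fintype.piFinset fun _ : Fin m => Finset.range (n * d + 1))).image
    fun yz => point n m yz.1 yz.2

open Pool.Agent.H530R2

/-- the parameter of the classes -/
noncomputable def bd (w : ℕ) : ℕ → ℕ
  | 0 => w + 1
  | D + 1 => (goodD ℂ D).comb w (bd w D) + bd w D + w + 1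

theorem contents_adjoin {n w v : ℕ} (c₀ : Fin w → ℂ) (inp : ℕ → Fin v → MvPolynomial (Fin n) ℂ)
    (upd : ℕ → Fin w → MvPolynomial (Fin w ⊕ Fin v) ℂ) (b : ℕ) (s : Fin w) :
    contents c₀ inp upd (b + 1) s ∈
      Algebra.adjoin ℂ (Set.range (contents c₀ inp upd b) ∪ Set.range (inp b)) := by
  rw [← Set.Sum.elim_range, Algebra.adjoin_range_eq_range_aeval]
  exact ⟨upd b s, rfl⟩

theorem comp_mem {n w D : ℕ} {f : MvPolynomial (Fin n) ℂ} (h : Comp w D f) :
    f ∈ (goodD ℂ D).K n (bd w D) := by
  induction h with
  | leaf hf =>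
    exact Pol.single (Nat.succ_pos w) (fun a ha => Nat.lt_succ_of_le (hf a ha))
  | @up D f _ ih => exact (goodD ℂ D).toNext (by simp only [bd]; omega) (by simp only [bd]; omega) ih
  | @poly D N g P hN _ ih =>
    refine (goodD ℂ D).toNext (W := (goodD ℂ D).comb w (bd w D)) (by simp only [bd]; omega)
      (by simp only [bd]; omega) ?_
    refine (goodD ℂ D).comb_mem (by rw [Fintype.card_fin]; exact hN) ih ?_
    rw [Algebra.adjoin_range_eq_range_aeval]
    exact ⟨P, rfl⟩
  | @prod D N g hocc _ ih =>
    refine (goodD ℂ D).gateNext (by simp only [bd]; omega) (Or.inl ?_)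
    refine ⟨N, g, fun i => (goodD ℂ D).mono (by simp only [bd]; omega) (ih i), ?_, rfl⟩
    intro k
    exact (hocc k).trans (by simp only [bd]; omega)
  | @program D u v β c₀ inp upd R P hu hv hβ _ ih =>
    refine (goodD ℂ D).gateNext (by simp only [bd]; omega) (Or.inr ⟨β, R, ?_⟩)
    have hreg : RegB (goodD ℂ D) β (bd w D) (contents c₀ inp upd) inp := by
      refine ⟨fun i => ⟨c₀ i, rfl⟩, fun b i => ih b i, ?_, fun b s => contents_adjoin _ _ _ b s⟩
      intro b i
      rw [mem_supported]
      intro k hk
      rw [Finset.mem_coe, mem_Bb]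
      exact hβ b i k (by exact_mod_cast hk)
    refine hreg.toFin (R := R) ?_ ?_ ?_ ?_ ?_
    · rw [Algebra.adjoin_range_eq_range_aeval]
      exact ⟨P, rfl⟩
    · simp only [bd]; omega
    · rw [Fintype.card_fin]; simp only [bd]; omega
    · rw [Fintype.card_fin]; simp only [bd]; omega
    · unfold Good.c0; omega

/-- one pass -/
theorem pass_mem {n w W : ℕ} (hw : w ≤ W) (hW : 1 ≤ W) (σ : Equiv.Perm (Fin n))
    (M : Fin n → Matrix (Fin w) (Fin w) (Polynomial ℂ)) (i j : Fin w) :
    Comp W 1 ((List.ofFn fun k : Fin n =>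
      (M k).map (Polynomial.aeval (X (σ k) : MvPolynomial (Fin n) ℂ))).prod i j) := by
  classical
  set inp : ℕ → Fin 1 → MvPolynomial (Fin n) ℂ :=
    fun b _ => if h : b < n then X (σ ⟨b, h⟩) else 0 with hinp
  set upd : ℕ → Fin w → MvPolynomial (Fin w ⊕ Fin 1) ℂ :=
    fun b s => if h : b < n then ∑ l, X (Sum.inl l) *
      Polynomial.aeval (X (Sum.inr 0) : MvPolynomial (Fin w ⊕ Fin 1) ℂ) (M ⟨b, h⟩ l s) else 0
    with hupd
  set c₀ : Fin w → ℂ := fun s => if i = s then 1 else 0 with hc₀
  have key : ∀ b : ℕ, ∀ hb : b ≤ n, ∀ s, contents c₀ inp upd b s =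
      (List.ofFn fun k : Fin b => (M (Fin.castLE hb k)).map
        (Polynomial.aeval (X (σ (Fin.castLE hb k)) : MvPolynomial (Fin n) ℂ))).prod i s := by
    intro b
    induction b with
    | zero =>
      intro _ s
      simp only [contents, hc₀, List.ofFn_zero, List.prod_nil, Matrix.one_apply]
      split_ifs
      · exact C_1
      · exact C_0
    | succ b ih =>
      intro hb s
      have hb' : b < n := hb
      rw [List.ofFn_succ', List.concat_eq_append, List.prod_append, List.prod_singleton,
        Matrix.mul_apply]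
      have h1 : contents c₀ inp upd (b + 1) s = ∑ l, contents c₀ inp upd b l *
          Polynomial.aeval (X (σ ⟨b, hb'⟩) : MvPolynomial (Fin n) ℂ) (M ⟨b, hb'⟩ l s) := by
        simp only [contents, hupd, dif_pos hb', map_sum, map_mul, aeval_X, Sum.elim_inl]
        apply Finset.sum_congr rfl
        intro l _
        congr 1
        rw [← Polynomial.aeval_algHom_apply]
        simp [hinp, hb']
      rw [h1]
      apply Finset.sum_congr rfl
      intro l _
      rw [ih (by omega) l]
      rfl
  have h1 := key n le_rfl j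
  have h2 : (List.ofFn fun k : Fin n =>
      (M k).map (Polynomial.aeval (X (σ k) : MvPolynomial (Fin n) ℂ))).prod i j =
      aeval (contents c₀ inp upd n) (X j : MvPolynomial (Fin w) ℂ) := by
    rw [aeval_X, h1]
    rfl
  rw [h2]
  refine Comp.program (fun k => (σ.symm k : ℕ)) c₀ inp upd n (X j) hw hW ?_ ?_
  · intro b i' k hk
    by_cases h : b < n
    · simp only [hinp, dif_pos h, vars_X, Finset.mem_singleton] at hk
      rw [hk, Equiv.symm_apply_apply]
    · simp only [hinp, dif_neg h, vars_0, Finset.notMem_empty] at hk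
  · intro b i'
    apply Comp.leaf
    intro a ha
    by_cases h : b < n
    · simp only [hinp, dif_pos h] at ha
      have h3 := Finset.mem_singleton.1 (support_monomial_subset ha)
      rw [h3]
      refine le_trans ?_ hW
      refine (Finset.card_le_card Finsupp.support_single_subset).trans ?_
      simp
    · simp only [hinp, dif_neg h, support_zero, Finset.notMem_empty] at ha

/-- entries of products of matrices -/
theorem entry_mem {R A : Type*} [CommRing R] [CommRing A] [Algebra R A] {w : ℕ}
    (𝔸 : Subalgebra R A) (L : List (Matrix (Fin w) (Fin w) A)) (h : ∀ B ∈ L, ∀ i j, B i j ∈ 𝔸)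
    (i j : Fin w) : L.prod i j ∈ 𝔸 := by
  classical
  induction L generalizing i with
  | nil =>
    rw [List.prod_nil, Matrix.one_apply]
    split_ifs
    · exact 𝔸.one_mem
    · exact 𝔸.zero_mem
  | cons B L ih =>
    rw [List.prod_cons, Matrix.mul_apply]
    exact Subalgebra.sum_mem _ fun l _ => Subalgebra.mul_mem _ (h B List.mem_cons_self i l)
      (ih (fun B' hB' => h B' (List.mem_cons_of_mem _ hB')) l)

theorem multipass_mem {n w c : ℕ} (σ : Fin c → Equiv.Perm (Fin n))
    (M : Fin c → Fin n → Matrix (Fin w) (Fin w) (Polynomial ℂ)) (u v : Fin w → ℂ) :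
    Comp (c * w ^ 2 + w + 1) 2 (multipass σ M u v) := by
  classical
  set e : Fin (c * w ^ 2) ≃ Fin c × (Fin w × Fin w) := by
    refine Fintype.equivOfCardEq ?_
    rw [Fintype.card_fin, Fintype.card_prod, Fintype.card_prod, Fintype.card_fin,
      Fintype.card_fin, sq] with he
  set g : Fin (c * w ^ 2) → MvPolynomial (Fin n) ℂ := fun x =>
    (List.ofFn fun k : Fin n => (M (e x).1 k).map
      (Polynomial.aeval (X (σ (e x).1 k) : MvPolynomial (Fin n) ℂ))).prod (e x).2.1 (e x).2.2
    with hg
  have h1 : multipass σ M u v ∈ Algebra.adjoin ℂ (Set.range g) := by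
    unfold multipass
    refine Subalgebra.sum_mem _ fun i _ => Subalgebra.sum_mem _ fun j _ => ?_
    refine Subalgebra.mul_mem _ (Subalgebra.mul_mem _ (Subalgebra.algebraMap_mem _ _) ?_)
      (Subalgebra.algebraMap_mem _ _)
    apply entry_mem
    intro B hB i' j'
    rw [List.mem_ofFn] at hB
    obtain ⟨t, rfl⟩ := hB
    refine Algebra.subset_adjoin ⟨e.symm (t, (i', j')), ?_⟩
    simp only [hg, Equiv.apply_symm_apply]
  rw [Algebra.adjoin_range_eq_range_aeval] at h1
  obtain ⟨P, hP⟩ := h1
  have hP' : aeval g P = multipass σ M u v := hP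
  rw [← hP']
  refine Comp.poly g P (by omega) fun x => ?_
  exact pass_mem (by omega) (by omega) _ _ _ _

/-- For all bounds `w, D, r` there is a number `m` of seeds such that for all `n, d` the explicit
set `points n m d ⊆ ℤ^n` with at most `((d+1)(nd+1))^m` elements hits every polynomial of total
degree at most `d` in `n` variables that divides a product of nonzero composites, of
transcendence degree at most `r`, of polynomials of depth `D`. The polynomials computed by
oblivious branching programs of width `w` with `c` passes have depth `2`. -/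
theorem result :
    (∀ w D r : ℕ, ∃ m : ℕ, ∀ n d : ℕ,
      (points n m d).card ≤ ((d + 1) * (n * d + 1)) ^ m ∧
      (∀ p ∈ points n m d, ∀ i, |p i| ≤ ((m * d * (n * d + n) ^ (n - 1) : ℕ) : ℤ)) ∧
      ∀ (f : MvPolynomial (Fin n) ℂ) (s : ℕ) (F : Fin s → MvPolynomial (Fin n) ℂ),
        (∀ j, Composite w D r (F j)) → (∀ j, F j ≠ 0) → f ∣ ∏ j, F j → f.totalDegree ≤ d →
        ∃ p ∈ points n m d, MvPolynomial.eval (fun i => (p i : ℂ)) f ≠ 0) ∧
    ∀ (n w c : ℕ) (σ : Fin c → Equiv.Perm (Fin n))
      (M : Fin c → Fin n → Matrix (Fin w) (Fin w) (Polynomial ℂ)) (u v : Fin w → ℂ),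
      Comp (c * w ^ 2 + w + 1) 2 (multipass σ M u v) := by
  refine ⟨?_, fun n w c σ M u v => multipass_mem σ M u v⟩
  intro w D r
  obtain ⟨m, hm⟩ := (goodD ℂ D).comp (bd w D) r
  refine ⟨m, fun n d => ⟨hitSet_card n _ d, fun p hp i => hitSet_bound n _ d p hp i, ?_⟩⟩
  intro f s F hF hF0 hdvd hd
  refine exists_hit n m d f hd ?_
  intro hf
  have h1 := Ideal.mem_of_dvd _ hdvd hf
  have hprime := genI_prime (fun i : Fin n => ((i.val : ℕ) : ℂ)) m
  rw [Ideal.IsPrime.prod_mem_iff] at h1
  obtain ⟨j, _, h1⟩ := h1
  obtain ⟨N, g, P, hg, htr, hFj⟩ := hF j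
  apply hF0 j
  rw [hFj]
  refine hm n (stdVan _ (nodes_injective n)) N g (fun i => comp_mem (hg i)) htr P ∅ ?_
  rw [mem_stdVan, ← hFj]
  exact h1

end Pool.Agent.Results.MP_e2be99_lc.MultiPassPrograms
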