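import Pool.Agent.H532R2.CopyPoly

/-!
# Identity testing for sums of copies of a circuit with nonnegative coefficients

Let `K` be an arbitrary arithmetic circuit over `ℚ` of polynomially bounded formal degree that
computes a polynomial with nonnegative coefficients.  For linear forms `ℓ_{i,v}` in the variables of
pairwise disjoint blocks `X₀, X₁, X₂, …` and rational numbers `cᵢ` consider
`∑ᵢ cᵢ K(ℓ_{i,0}(X₀), ℓ_{i,1}(X₁), …)`.  A Turing machine decides in polynomial time whether this
sum, with an unbounded number of summands, is zero: it is zero if and only if
`∑ᵢⱼ cᵢ cⱼ K(⟨ℓ_{i,0}, ℓ_{j,0}⟩, ⟨ℓ_{i,1}, ℓ_{j,1}⟩, …) = 0`.

For `K = y₀ ^ d` these are the depth-3 diagonal circuits, for `K = y₀ y₁ ⋯ yₙ` the set-multilinear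
circuits of depth 3.  Further examples are all monotone circuits and the determinants
`K = det(A + ∑ᵥ yᵥ Aᵥ)` with positive semidefinite matrices `A, Aᵥ`.
-/

namespace Pool.Agent.Results.MP_e2be99_lc.NonnegCopies

open Pool.Agent.NPC Pool.Agent.H532R2.Copies

theorem result : ∃ F : Input → Bool,
    Nonempty (Turing.TM2ComputableInPolyTime
      (bits : Input → List Bool) (bits : Bool → List Bool) F) ∧
    ∀ I : Input, Small I → Nonneg I → (F I = true ↔ value I = 0) :=
  Pool.Agent.NPC.H532.CP.copies_result

end Pool.Agent.Results.MP_e2be99_lc.NonnegCopies

/-! Claim file of this statement (helper532), parked:
Proves: There is a polynomial-time Turing machine (Mathlib's TM2ComputableInPolyTime) which, given 1^m, an arithmetic circuit K over Q with inputs y_0,y_1,... and a list of summands (c,a), decides correctly whether the sum over (c,a) of c*K(l_0(X_0),l_1(X_1),...) is the zero polynomial, for all inputs such that all gates of K have formal degree <= m (inputs and constants have degree 1) and the polynomial computed by K has nonnegative coefficients; here l_v = sum_k a_{v,k} x_{v,k} are the homogeneous linear forms given by a in pairwise disjoint blocks X_v of variables.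
Definitions: bits: injective binary encoding; Gate: input, rational constant, sum or product of two earlier gates (value 0 if missing); poly K: polynomial computed by K; lin a v = l_v; value: the sum; Small: the degree condition; Nonneg: all coefficients of poly K are >= 0 (a promise; K may use negative constants and subtraction).
Relation: Partial answer (special case): white-box PIT over Q for sums, with unbounded fan-in, of copies of one circuit K at different linear forms, for any K computing a polynomial with nonnegative coefficients, e.g. monotone K, weighted spanning tree polynomials, det(A+sum y_v A_v) with A, A_v positive semidefinite. Known: K a power (Saxena 2008), K a product y_0...y_n (Raz-Shpilka 2005). For general K this is all of PIT (one summand). The proof uses the Schur product theorem with an equality case. We know no earlier result of this generality.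
-/
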