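import Pool.Agent.H532R2.BlockPoly

/-!
# Identity testing for sums of products of variable-disjoint two-block branching programs is in P

The variables are partitioned into blocks `X_b = (x_{b,0}, x_{b,1}, …)`.  An input is a list of
summands, each of them a rational number times a product of factors.  A factor is a read-once
oblivious algebraic branching program (ROABP) that reads the variables of a block `X_u` and then
the variables of a block `X_v`; the entries of its layers are polynomials with exponents written in
binary, given by their lists of coefficients.  In each summand the factors have pairwise disjoint
pairs of blocks, but different summands can pair the blocks in different ways.  The number of
summands is unbounded.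

A Turing machine decides in polynomial time whether an input has this form and whether the
polynomial that it computes is zero.

The inner product (with respect to the monomial basis) of two summands is computed by contracting a
network whose nodes have degree at most two; a polynomial over `ℚ` is zero if and only if its norm
is zero.
-/

namespace Pool.Agent.Results.MP_e2be99_lc.TwoBlockPrograms

open Pool.Agent.NPC Pool.Agent.H532R2.BlockSum

open Classical in
theorem result : Nonempty (Turing.TM2ComputableInPolyTime
    (bits : Input → List Bool) (bits : Bool → List Bool)
    (fun I => decide (Disjoint I ∧ value I = 0))) :=
  Pool.Agent.NPC.H532.BM.block_result

end Pool.Agent.Results.MP_e2be99_lc.TwoBlockPrograms

/-! Claim file of this statement (helper532), parked: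
Proves: There is a polynomial-time Turing machine (Mathlib's TM2ComputableInPolyTime) that, given 1^w and a list of summands (c,[f_1,...,f_r]) with c rational and f_j two-block branching programs of width w+1, decides whether in every summand the blocks u_1,v_1,...,u_r,v_r are pairwise distinct and the sum of all c*f_1*...*f_r is the zero polynomial over Q.
Definitions: bits: injective binary encoding of the inputs; variables x_{b,k} form blocks X_b; a layer is a list of (exponent in binary, rational matrix), i.e. a matrix polynomial in one variable; factor (u,v,L,R): entry (0,0) of L_0(x_{u,0})L_1(x_{u,1})...R_0(x_{v,0})R_1(x_{v,1})..., a read-once oblivious ABP reading block u, then block v; value: the sum; Disjoint: distinctness of blocks in each summand.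
Relation: Partial answer (special case): white-box PIT over Q is in P for sums, with unbounded fan-in, of products of variable-disjoint ROABPs each reading two blocks, where summands may pair the blocks differently (e.g. multilinear depth-3 circuits with bottom fan-in 2; one-variable blocks: products of disjoint sparse bivariate polynomials). Degrees may be exponential. Known: one pairing/order (Raz-Shpilka 2005), sums of O(1) ROABPs in different orders (Gurjar-Korwar-Saxena-Thierauf 2015), subexponential time for multilinear depth-3/4; we know no polynomial-time result for unbounded fan-in and different pairings.
-/
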